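import Pool.Agent.Helper15.EP.St

set_option autoImplicit false

/-! Module MTB of project EP (MP_16cbc0_nt). -/

open Polynomial

namespace Pool.Agent.Helper73.EP

open Pool.Agent.Helper15.FC Pool.Agent.Helper15.EP

theorem q2 (F : Type) [Field F] [Fintype F] : (2 : ℝ) ≤ qr F := by
  unfold qr
  exact_mod_cast Fintype.one_lt_card (α := F)

theorem prod_Tup {F : Type} [Field F] [Fintype F] {k : ℕ} {x : Fin k → ℕ} {a : Fin k → F[X]}
    (ha : a ∈ Tup F x) : (∏ i, a i).Monic ∧ (∏ i, a i).natDegree = ∑ i, x i := by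
  unfold Tup at ha
  rw [Fintype.mem_piFinset] at ha
  have h1 : ∀ i, (a i).Monic ∧ (a i).natDegree = x i := fun i => mem_Mn.1 (ha i)
  refine ⟨Polynomial.monic_prod_of_monic _ _ (fun i _ => (h1 i).1), ?_⟩
  rw [Polynomial.natDegree_prod_of_monic _ _ (fun i _ => (h1 i).1)]
  exact Finset.sum_congr rfl (fun i _ => (h1 i).2)

open scoped Classical in
theorem sum_Dv {F : Type} [Field F] [Fintype F] {k : ℕ} (x : Fin k → ℕ) (g : F[X] → ℝ) :
    ∑ a ∈ Tup F x, ∑ e ∈ Dv (∏ i, a i), g e =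
      ∑ i ∈ Finset.range (∑ i, x i + 1), ∑ e ∈ Mn F i, g e * (Dc e x : ℝ) := by
  have h1 : ∀ a ∈ Tup F x, ∑ e ∈ Dv (∏ i, a i), g e =
      ∑ e ∈ (Finset.range (∑ i, x i + 1)).biUnion (fun i => Mn F i),
        if e ∣ ∏ i, a i then g e else 0 := by
    intro a ha
    unfold Dv
    rw [(prod_Tup ha).2, Finset.sum_filter]
  rw [Finset.sum_congr rfl h1, Finset.sum_comm, Finset.sum_biUnion]
  · refine Finset.sum_congr rfl (fun i _ => Finset.sum_congr rfl (fun e _ => ?_))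
    unfold Dc
    rw [← Finset.sum_filter, Finset.sum_const, nsmul_eq_mul, mul_comm]
  · intro i _ j _ hij
    simp only [Function.onFun]
    rw [Finset.disjoint_left]
    intro f hf hf'
    exact hij ((mem_Mn.1 hf).2.symm.trans (mem_Mn.1 hf').2)

open scoped Classical in
theorem Dc_zero {F : Type} [Field F] [Fintype F] {k : ℕ} (x : Fin k → ℕ) {e : F[X]}
    (he : ∑ i, x i < e.natDegree) : Dc e x = 0 := by
  unfold Dc
  rw [Finset.card_eq_zero, Finset.filter_eq_empty_iff]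
  intro a ha hdv
  obtain ⟨h1, h2⟩ := prod_Tup ha
  have := Polynomial.natDegree_le_of_dvd hdv h1.ne_zero
  omega

theorem tau_ge_one {F : Type} [Field F] [Fintype F] {e : F[X]} (he : e.Monic) : 1 ≤ tau e := by
  unfold tau
  have h1 : (1 : F[X]) ∈ Dv e := (mem_Dv he.ne_zero).2 ⟨monic_one, one_dvd _⟩
  exact_mod_cast Finset.card_pos.2 ⟨1, h1⟩

/-- the normalized terms -/
noncomputable def St {F : Type} [Field F] [Fintype F] {k l : ℕ} (x : Fin k → ℕ)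
    (y : Fin (l + 1) → ℕ) (h : F[X]) (i : ℕ) : ℝ :=
  ∑ e ∈ Mn F i, (cram e h : ℝ) * Vl e y * (Dc e x : ℝ) / (qr F ^ (∑ i, x i) * qr F ^ (∑ j, y j))

theorem sum_AV (hAPM : StAPM) {F : Type} [Field F] [Fintype F] {k l : ℕ} (x : Fin k → ℕ)
    (y : Fin (l + 1) → ℕ) (h : F[X]) :
    ∑ a ∈ Tup F x, AV y (∏ i, a i) h =
      qr F ^ (∑ j, y j) * ∑ i ∈ Finset.range (∑ i, x i + 1), St x y h i := by
  have hq : (0 : ℝ) < qr F := by linarith [q2 F]
  have hμ : (0 : ℝ) < qr F ^ (∑ i, x i) := pow_pos hq _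
  have hν : (0 : ℝ) < qr F ^ (∑ j, y j) := pow_pos hq _
  have h1 : (∑ a ∈ Tup F x, AV y (∏ i, a i) h) * qr F ^ (∑ i, x i) =
      ∑ a ∈ Tup F x, ∑ e ∈ Dv (∏ i, a i), (cram e h : ℝ) * Vl e y := by
    rw [Finset.sum_mul]
    refine Finset.sum_congr rfl (fun a ha => ?_)
    obtain ⟨g1, g2⟩ := prod_Tup ha
    rw [← g2, hAPM F (l + 1) y _ h g1]
  rw [sum_Dv] at h1
  have h2 : (∑ a ∈ Tup F x, AV y (∏ i, a i) h) =
      (∑ i ∈ Finset.range (∑ i, x i + 1), ∑ e ∈ Mn F i, (cram e h : ℝ) * Vl e y * (Dc e x : ℝ)) /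
        qr F ^ (∑ i, x i) := by
    rw [← h1]; field_simp
  rw [h2, Finset.mul_sum, Finset.sum_div]
  refine Finset.sum_congr rfl (fun i _ => ?_)
  unfold St
  rw [Finset.mul_sum, Finset.sum_div]
  refine Finset.sum_congr rfl (fun e _ => ?_)
  field_simp

theorem St_low (hGPR : StGPR) (hVEX : StVEX) {F : Type} [Field F] [Fintype F] {k l : ℕ}
    (x : Fin k → ℕ) (y : Fin (l + 1) → ℕ) (h : F[X]) (i : ℕ) (hx : ∀ j, i ≤ x j)
    (hy : ∀ j, i ≤ y j) : St x y h i = Gs k l h i := by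
  have hq : (0 : ℝ) < qr F := by linarith [q2 F]
  have hμ : (0 : ℝ) < qr F ^ (∑ i, x i) := pow_pos hq _
  have hν : (0 : ℝ) < qr F ^ (∑ j, y j) := pow_pos hq _
  unfold St Gs
  refine Finset.sum_congr rfl (fun e he => ?_)
  obtain ⟨hm, hd⟩ := mem_Mn.1 he
  have h1 := hGPR F k x e hm (by rw [hd]; exact hx)
  have h2 := hVEX F l y e hm (by rw [hd]; exact hy)
  rw [hd] at h1 h2
  have hi : (0 : ℝ) < qr F ^ i := pow_pos hq _
  have h3 : (Dc e x : ℝ) = qr F ^ (∑ i, x i) * Gk k e / qr F ^ i := by rw [← h1]; field_simp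
  have h4 : Vl e y = qr F ^ (∑ j, y j) * Gk l e / qr F ^ i := by rw [← h2]; field_simp
  rw [h3, h4, two_mul, pow_add]
  field_simp

/-- bound for a divisor power -/
theorem tau_pow {F : Type} [Field F] [Fintype F] {Ct : ℝ} {m : ℕ} (hm : 1 ≤ m)
    (hT : ∀ f : F[X], f.Monic → ((Dv f).card : ℝ) ≤ Ct * qr F ^ ((1 / (4 * (m : ℝ))) * f.natDegree))
    {e : F[X]} (he : e.Monic) {i : ℕ} (hi : e.natDegree = i) (m' : ℕ) (hm' : m' ≤ m) :
    tau e ^ m' ≤ Ct ^ m * (qr F ^ (1 / 4 : ℝ)) ^ i := by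
  have hq : (0 : ℝ) < qr F := by linarith [q2 F]
  have h1 : tau e ^ m' ≤ tau e ^ m := pow_le_pow_right₀ (tau_ge_one he) hm'
  have h2 : tau e ≤ Ct * qr F ^ ((1 / (4 * (m : ℝ))) * i) := by
    have := hT e he
    rw [hi] at this
    exact this
  have h3 : tau e ^ m ≤ (Ct * qr F ^ ((1 / (4 * (m : ℝ))) * i)) ^ m :=
    pow_le_pow_left₀ (by linarith [tau_ge_one he]) h2 m
  refine le_trans h1 (le_trans h3 (le_of_eq ?_))
  rw [mul_pow]
  congr 1
  rw [← Real.rpow_natCast, ← Real.rpow_mul hq.le, ← Real.rpow_natCast, ← Real.rpow_mul hq.le]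
  congr 1
  have : (m : ℝ) ≠ 0 := by positivity
  field_simp


/-- `σ = q^(-1/4)` -/
noncomputable def sg (F : Type) [Fintype F] : ℝ := qr F ^ (-(1 / 4) : ℝ)

theorem sg_pos (F : Type) [Field F] [Fintype F] : 0 < sg F := by
  have hq : (0 : ℝ) < qr F := by linarith [q2 F]
  exact Real.rpow_pos_of_pos hq _

theorem sg_lt (F : Type) [Field F] [Fintype F] : sg F < 1 := by
  have hq : (1 : ℝ) < qr F := by linarith [q2 F]
  exact Real.rpow_lt_one_of_one_lt_of_neg hq (by norm_num)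

theorem sg3 (F : Type) [Field F] [Fintype F] : (qr F ^ (1 / 4 : ℝ)) / qr F = sg F ^ 3 := by
  have hq : (0 : ℝ) < qr F := by linarith [q2 F]
  unfold sg
  rw [← Real.rpow_natCast, ← Real.rpow_mul hq.le]
  nth_rewrite 2 [← Real.rpow_one (qr F)]
  rw [← Real.rpow_sub hq]
  congr 1
  push_cast
  norm_num

theorem sg2L (F : Type) [Field F] [Fintype F] (L : ℕ) :
    qr F ^ (-(1 / 2 : ℝ) * L) = (sg F ^ 2) ^ L := by
  have hq : (0 : ℝ) < qr F := by linarith [q2 F]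
  unfold sg
  rw [← pow_mul, ← Real.rpow_natCast, ← Real.rpow_mul hq.le]
  congr 1
  push_cast
  ring

theorem cnt {F : Type} [Field F] [Fintype F] {i : ℕ} {g : F[X] → ℝ} {K : ℝ}
    (hg : ∀ e ∈ Mn F i, |g e| ≤ K * ((qr F ^ (1 / 4 : ℝ)) ^ i / qr F ^ (2 * i))) :
    |∑ e ∈ Mn F i, g e| ≤ K * (sg F ^ 3) ^ i := by
  have hq : (0 : ℝ) < qr F := by linarith [q2 F]
  have h1 : |∑ e ∈ Mn F i, g e| ≤ ∑ e ∈ Mn F i, K * ((qr F ^ (1 / 4 : ℝ)) ^ i / qr F ^ (2 * i)) :=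
    le_trans (Finset.abs_sum_le_sum_abs _ _) (Finset.sum_le_sum hg)
  refine le_trans h1 (le_of_eq ?_)
  rw [Finset.sum_const, card_Mn, nsmul_eq_mul, ← sg3, div_pow]
  push_cast
  rw [two_mul, pow_add]
  have hi : (0 : ℝ) < qr F ^ i := pow_pos hq _
  unfold qr at hi ⊢
  field_simp

theorem St_bd (hDUB : StDUB) (hVUB : StVUB) (hCHB : StCHB) {F : Type} [Field F] [Fintype F]
    {k l : ℕ} (x : Fin k → ℕ) (y : Fin (l + 1) → ℕ) {h : F[X]} (hh : h ≠ 0) {Ct : ℝ}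
    (hT : ∀ f : F[X], f.Monic → ((Dv f).card : ℝ) ≤
      Ct * qr F ^ ((1 / (4 * ((k + l + 3 : ℕ) : ℝ))) * f.natDegree)) (i : ℕ) :
    |St x y h i| ≤ (tau h * qr F ^ h.natDegree * Ct ^ (k + l + 3)) * (sg F ^ 3) ^ i := by
  have hq : (0 : ℝ) < qr F := by linarith [q2 F]
  have hμ : (0 : ℝ) < qr F ^ (∑ i, x i) := pow_pos hq _
  have hν : (0 : ℝ) < qr F ^ (∑ j, y j) := pow_pos hq _
  unfold St
  apply cnt
  intro e he
  obtain ⟨hm, hd⟩ := mem_Mn.1 he
  have h1 := hDUB F k x e hm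
  have h2 := hVUB F (l + 1) y e hm
  have h3 := hCHB F e h hm hh
  have h4 := tau_pow (m := k + l + 3) (by omega) hT hm hd (k + (l + 1 + 2)) (by omega)
  rw [hd] at h1 h2
  have hi : (0 : ℝ) < qr F ^ i := pow_pos hq _
  have hte : 0 ≤ tau e := by linarith [tau_ge_one hm]
  have hD : (0 : ℝ) ≤ (Dc e x : ℝ) := Nat.cast_nonneg _
  have hH : 0 ≤ tau h * qr F ^ h.natDegree := le_trans (abs_nonneg _) h3
  rw [abs_div, abs_mul, abs_mul, abs_of_nonneg hD, abs_of_pos (mul_pos hμ hν),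
    div_le_iff₀ (mul_pos hμ hν)]
  have h5 : |Vl e y| ≤ qr F ^ (∑ j, y j) * tau e ^ (l + 1 + 2) / qr F ^ i := by
    rw [le_div_iff₀ hi]; exact h2
  have h6 : (Dc e x : ℝ) ≤ qr F ^ (∑ i, x i) * tau e ^ k / qr F ^ i := by
    rw [le_div_iff₀ hi]; exact h1
  calc |(cram e h : ℝ)| * |Vl e y| * (Dc e x : ℝ)
      ≤ (tau h * qr F ^ h.natDegree) * (qr F ^ (∑ j, y j) * tau e ^ (l + 1 + 2) / qr F ^ i) *
        (qr F ^ (∑ i, x i) * tau e ^ k / qr F ^ i) := by gcongr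
    _ = (tau h * qr F ^ h.natDegree) * (tau e ^ (k + (l + 1 + 2))) / qr F ^ (2 * i) *
        (qr F ^ (∑ i, x i) * qr F ^ (∑ j, y j)) := by
        have e1 : tau e ^ (k + (l + 1 + 2)) = tau e ^ k * tau e ^ (l + 1 + 2) := pow_add _ _ _
        have e2 : qr F ^ (2 * i) = qr F ^ i * qr F ^ i := by rw [two_mul, pow_add]
        rw [e1, e2]
        field_simp
    _ ≤ (tau h * qr F ^ h.natDegree) * (Ct ^ (k + l + 3) * (qr F ^ (1 / 4 : ℝ)) ^ i) /
        qr F ^ (2 * i) * (qr F ^ (∑ i, x i) * qr F ^ (∑ j, y j)) := by gcongr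
    _ = _ := by ring

theorem Gs_bd (hGKM : StGKM) (hCHB : StCHB) {F : Type} [Field F] [Fintype F]
    {k l : ℕ} {h : F[X]} (hh : h ≠ 0) {Ct : ℝ}
    (hT : ∀ f : F[X], f.Monic → ((Dv f).card : ℝ) ≤
      Ct * qr F ^ ((1 / (4 * ((k + l + 3 : ℕ) : ℝ))) * f.natDegree)) (i : ℕ) :
    |Gs k l h i| ≤ (tau h * qr F ^ h.natDegree * Ct ^ (k + l + 3)) * (sg F ^ 3) ^ i := by
  have hq : (0 : ℝ) < qr F := by linarith [q2 F]
  unfold Gs
  apply cnt
  intro e he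
  obtain ⟨hm, hd⟩ := mem_Mn.1 he
  have h1 := (hGKM F k).2.2 e hm
  have h2 := (hGKM F l).2.2 e hm
  have h3 := hCHB F e h hm hh
  have h4 := tau_pow (m := k + l + 3) (by omega) hT hm hd (k + l) (by omega)
  have hi : (0 : ℝ) < qr F ^ (2 * i) := pow_pos hq _
  have hte : 0 ≤ tau e := by linarith [tau_ge_one hm]
  have hH : 0 ≤ tau h * qr F ^ h.natDegree := le_trans (abs_nonneg _) h3
  rw [abs_mul, abs_mul, abs_mul, abs_of_nonneg h1.1, abs_of_nonneg h2.1,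
    abs_of_pos (inv_pos.2 hi)]
  calc Gk k e * Gk l e * (qr F ^ (2 * i))⁻¹ * |(cram e h : ℝ)|
      ≤ tau e ^ k * tau e ^ l * (qr F ^ (2 * i))⁻¹ * (tau h * qr F ^ h.natDegree) := by
        have a1 := h1.1
        have a2 := h2.1
        have a3 := h1.2
        have a4 := h2.2
        gcongr
    _ = tau e ^ (k + l) * (qr F ^ (2 * i))⁻¹ * (tau h * qr F ^ h.natDegree) := by rw [pow_add]
    _ ≤ (Ct ^ (k + l + 3) * (qr F ^ (1 / 4 : ℝ)) ^ i) * (qr F ^ (2 * i))⁻¹ *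
        (tau h * qr F ^ h.natDegree) := by gcongr
    _ = _ := by rw [div_eq_mul_inv]; ring

theorem hMTB (hAPM : StAPM) (hGPR : StGPR) (hVEX : StVEX) (hDUB : StDUB) (hVUB : StVUB)
    (hCHB : StCHB) (hGKM : StGKM) (hTAU : StTAU) (hSSP : StSSP) : StMTB := by
  intro F _ _ k l h hh
  obtain ⟨Ct, hCt, hT⟩ := hTAU F (1 / (4 * ((k + l + 3 : ℕ) : ℝ))) (by positivity)
  set K : ℝ := tau h * qr F ^ h.natDegree * Ct ^ (k + l + 3) with hK
  have hq : (0 : ℝ) < qr F := by linarith [q2 F]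
  have hs0 := sg_pos F
  have hs1 := sg_lt F
  have hK0 : 0 ≤ K := by
    rw [hK]; unfold tau; positivity
  refine ⟨max 1 (2 * K / (1 - sg F)), le_max_left _ _, ?_⟩
  intro x y L hx hy
  have hν : (0 : ℝ) < qr F ^ (∑ j, y j) := pow_pos hq _
  rw [sum_AV hAPM, ← mul_sub, abs_mul, abs_of_pos hν, sg2L]
  have hz : ∀ i ∉ Finset.range (∑ i, x i + 1), St x y h i = 0 := by
    intro i hi
    rw [Finset.mem_range, not_lt] at hi
    unfold St
    refine Finset.sum_eq_zero (fun e he => ?_)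
    rw [Dc_zero x (by rw [(mem_Mn.1 he).2]; omega)]
    simp
  have hSs : Summable (fun i => St x y h i) := summable_of_ne_finset_zero hz
  have hGs : Summable (Gs k l h) := (hSSP F k l).choose_spec.2 h hh |>.1
  have hts : ∑ i ∈ Finset.range (∑ i, x i + 1), St x y h i = ∑' i, St x y h i :=
    (tsum_eq_sum (s := Finset.range (∑ i, x i + 1)) (fun i hi => hz i hi)).symm
  rw [hts, ← hSs.tsum_sub hGs]
  -- the bound of the terms
  have hterm : ∀ i, ‖St x y h i - Gs k l h i‖ ≤ (2 * K * (sg F ^ 2) ^ L) * sg F ^ i := by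
    intro i
    rw [Real.norm_eq_abs]
    by_cases hi : i ≤ L
    · rw [St_low hGPR hVEX x y h i (fun j => le_trans hi (hx j)) (fun j => le_trans hi (hy j)),
        sub_self, abs_zero]
      positivity
    · push Not at hi
      have h1 := St_bd hDUB hVUB hCHB x y hh hT i
      have h2 := Gs_bd hGKM hCHB hh hT i
      have h3 : |St x y h i - Gs k l h i| ≤ |St x y h i| + |Gs k l h i| := abs_sub _ _
      have h4 : (sg F ^ 3) ^ i ≤ (sg F ^ 2) ^ L * sg F ^ i := by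
        have h5 : (sg F ^ 3) ^ i = (sg F ^ 2) ^ i * sg F ^ i := by
          rw [← mul_pow]; congr 1
        rw [h5]
        have h6 : (sg F ^ 2) ^ i ≤ (sg F ^ 2) ^ L :=
          pow_le_pow_of_le_one (by positivity) (by nlinarith) hi.le
        gcongr
      have h7 : 2 * K * (sg F ^ 3) ^ i ≤ 2 * K * ((sg F ^ 2) ^ L * sg F ^ i) := by gcongr
      linarith
  have hsum : HasSum (fun i : ℕ => (2 * K * (sg F ^ 2) ^ L) * sg F ^ i)
      ((2 * K * (sg F ^ 2) ^ L) * (1 - sg F)⁻¹) :=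
    (hasSum_geometric_of_lt_one hs0.le hs1).mul_left _
  have hfin := tsum_of_norm_bounded hsum hterm
  rw [Real.norm_eq_abs] at hfin
  have h8 : (2 * K * (sg F ^ 2) ^ L) * (1 - sg F)⁻¹ = 2 * K / (1 - sg F) * (sg F ^ 2) ^ L := by
    rw [div_eq_mul_inv]; ring
  rw [h8] at hfin
  calc qr F ^ (∑ j, y j) * |∑' i, (St x y h i - Gs k l h i)|
      ≤ qr F ^ (∑ j, y j) * (2 * K / (1 - sg F) * (sg F ^ 2) ^ L) := by gcongr
    _ ≤ qr F ^ (∑ j, y j) * (max 1 (2 * K / (1 - sg F)) * (sg F ^ 2) ^ L) := by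
        have := le_max_right 1 (2 * K / (1 - sg F))
        gcongr
    _ = _ := by ring

end Pool.Agent.Helper73.EP
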